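import Pool.Agent.R592.Gp.Om

set_option autoImplicit false

/-! Piece OM-4: approximation of closed sets by finite-coordinate sets. -/

namespace Pool.Agent.R574.OM

open Set Cardinal MeasureTheory Filter Pool.Agent.R592.Om Topology

/-- the box of the coordinates -/
def bx (N : ℕ) : Finset (ℕ × ℕ) := Finset.range N ×ˢ Finset.range N

theorem mem_bx {N : ℕ} {j : ℕ × ℕ} : j ∈ bx N ↔ j.1 < N ∧ j.2 < N := by
  unfold bx
  rw [Finset.mem_product, Finset.mem_range, Finset.mem_range]

/-- the restriction to the box -/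
def rs (N : ℕ) (x : Om) : (i : bx N) → X i.1 := fun i => x i.1

theorem rs_meas (N : ℕ) : Measurable (rs N) :=
  measurable_pi_lambda _ fun i => measurable_pi_apply i.1

/-- the approximation -/
def Ap (A : Set Om) (N : ℕ) : Set Om := rs N ⁻¹' (rs N '' A)

theorem Ap_meas (A : Set Om) (N : ℕ) : MeasurableSet (Ap A N) :=
  rs_meas N (MeasurableSet.of_discrete)

theorem subset_Ap (A : Set Om) (N : ℕ) : A ⊆ Ap A N := fun x hx => ⟨x, hx, rfl⟩

theorem Ap_anti (A : Set Om) : Antitone (Ap A) := by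
  intro N N' h x hx
  obtain ⟨a, ha, hax⟩ := hx
  refine ⟨a, ha, ?_⟩
  funext i
  have hi : i.1 ∈ bx N' := by
    have := mem_bx.1 i.2
    exact mem_bx.2 ⟨by omega, by omega⟩
  exact congrFun hax ⟨i.1, hi⟩

theorem iInter_Ap {A : Set Om} (hA : IsClosed A) : ⋂ N, Ap A N = A := by
  refine Subset.antisymm (fun x hx => ?_) (subset_iInter fun N => subset_Ap A N)
  rw [mem_iInter] at hx
  choose a ha hax using hx
  have hlim : Tendsto a atTop (𝓝 x) := by
    rw [tendsto_pi_nhds]
    intro i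
    refine tendsto_const_nhds.congr' ?_
    filter_upwards [eventually_ge_atTop (max i.1 i.2 + 1)] with N hN
    have hi : i ∈ bx N := mem_bx.2 ⟨by omega, by omega⟩
    exact (congrFun (hax N) ⟨i, hi⟩).symm
  exact hA.mem_of_tendsto hlim (Eventually.of_forall ha)

theorem approx {A : Set Om} (hA : IsClosed A) (h0 : lam A ≠ 0) :
    ∃ (N : ℕ) (F : Set Om), MeasurableSet F ∧
      (∀ x y : Om, (∀ j : ℕ × ℕ, j.1 < N → j.2 < N → x j = y j) → (x ∈ F ↔ y ∈ F)) ∧
      A ⊆ F ∧ 7 / 8 * lam.real F ≤ lam.real A := by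
  have h1 : Tendsto (fun N => lam (Ap A N)) atTop (𝓝 (lam A)) := by
    have h2 := tendsto_measure_iInter_atTop (μ := lam) (s := Ap A)
      (fun N => (Ap_meas A N).nullMeasurableSet) (Ap_anti A) ⟨0, measure_ne_top _ _⟩
    rwa [iInter_Ap hA] at h2
  have h3 : Tendsto (fun N => lam.real (Ap A N)) atTop (𝓝 (lam.real A)) :=
    (ENNReal.tendsto_toReal (measure_ne_top _ _)).comp h1
  have h4 : 0 < lam.real A := ENNReal.toReal_pos h0 (measure_ne_top _ _)
  have h5 : ∀ᶠ N in atTop, lam.real (Ap A N) < 8 / 7 * lam.real A :=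
    h3.eventually_lt_const (by linarith)
  obtain ⟨N, hN⟩ := h5.exists
  refine ⟨N, Ap A N, Ap_meas A N, fun x y hxy => ?_, subset_Ap A N, by linarith⟩
  have h6 : rs N x = rs N y := by
    funext i
    have := mem_bx.1 i.2
    exact hxy i.1 this.1 this.2
  show rs N x ∈ rs N '' A ↔ rs N y ∈ rs N '' A
  rw [h6]

end Pool.Agent.R574.OM
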